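import Pool.Agent.H98.Dom.Final

set_option autoImplicit false

/-!
Exponential growth of the optimal bounds in the enclosure problem.

`p` is the largest domination number and `r` the largest enclosure number of a finite
tournament with a transitive colouring by `k` colours.  Both maxima exist, `r = 2^k p`, and
`p = 2^(k + O(log k))`, `r = 4^(k + O(log k))` with explicit bounds on both sides.
-/

namespace Pool.Agent.Results.MP_9fbf59_co.EnclosureGrowth

open Pool.Agent.H98.Dom

/-- For every `k ≥ 1` the optimal constants `p(k)` (domination) and `r(k)` (enclosure) for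
transitively `k`-coloured tournaments exist, `r(k) = 2^k p(k)`,
`binom(k-1, (k-1)/2) ≤ p(k) ≤ 3 k^2 2^k` and `4^k / (2k) ≤ r(k) ≤ 3 k^2 4^k`. -/
theorem result (k : ℕ) (hk : 1 ≤ k) :
    ∃ p r : ℕ, IsGreatest (domValues k) p ∧ IsGreatest (enclValues k) r ∧ r = 2 ^ k * p ∧
      (k - 1).choose ((k - 1) / 2) ≤ p ∧ p ≤ 3 * k ^ 2 * 2 ^ k ∧
      4 ^ k ≤ 2 * k * r ∧ r ≤ 3 * k ^ 2 * 4 ^ k :=
  main k hk

end Pool.Agent.Results.MP_9fbf59_co.EnclosureGrowth
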